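import Pool.Agent.P.MP_07ee5e_gt.KUpper

/-! Among metrics `g ≥ g₀` equal to `g₀` along the connected boundary, the Steklov eigenvalue
`σ_k` is at most `C k ^ (2 / d)` times the volume, and adding volume `W` near the boundary can
raise `σ_1, …, σ_N` to the order `k ^ (2 / d) W`. -/

set_option autoImplicit false

open scoped Manifold ContDiff Topology

namespace Pool.Agent.Results.MP_07ee5e_gt.SharpOrder

open Pool.Agent.P.MP_07ee5e_gt

theorem result (d : ℕ) (hd : 2 ≤ d) (M : Type) [TopologicalSpace M] [T2Space M] [CompactSpace M]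
    [ChartedSpace (EuclideanHalfSpace (d + 1)) M]
    [IsManifold (modelWithCornersEuclideanHalfSpace (d + 1)) ((⊤ : ℕ∞) : WithTop ℕ∞) M]
    [MeasurableSpace M] [BorelSpace M]
    (hconn : IsConnected ((modelWithCornersEuclideanHalfSpace (d + 1)).boundary M))
    (g₀ : RMetric d M) :
    ∃ c C : ℝ, 0 < c ∧ 0 < C ∧
      (∀ g : RMetric d M, SameOnBoundary g g₀ → (∀ x v, innerAt g₀ x v v ≤ innerAt g x v v) →
        ∀ k : ℕ, 1 ≤ k →
          steklov k g ≤ ENNReal.ofReal (C * (k : ℝ) ^ ((2 : ℝ) / d)) * vol g Set.univ) ∧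
      (∀ (N : ℕ) (W : ℝ) (U : Set M), 0 < W → IsOpen U →
        (modelWithCornersEuclideanHalfSpace (d + 1)).boundary M ⊆ U →
        ∃ g : RMetric d M, SameOnBoundary g g₀ ∧ (∀ x v, innerAt g₀ x v v ≤ innerAt g x v v) ∧
          (∀ x, x ∉ U → ∀ v w, innerAt g x v w = innerAt g₀ x v w) ∧
          vol g Set.univ ≤ vol g₀ Set.univ + ENNReal.ofReal W ∧
          ∀ k : ℕ, 1 ≤ k → k ≤ N →
            ENNReal.ofReal (c * (k : ℝ) ^ ((2 : ℝ) / d) * W) ≤ steklov k g) := by
  obtain ⟨x₀, hx₀⟩ := hconn.nonempty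
  obtain ⟨B, -⟩ := exists_box hx₀
  obtain ⟨c, hc, hlow⟩ := lower_bound_all hd hconn g₀
  obtain ⟨C, hC, hup⟩ := upper_bound_all hd g₀ B
  refine ⟨c, C, hc, hC, fun g hg hle k hk => hup k hk g (fun x hx => ?_) hle,
    fun N W U hW hU hUb => ?_⟩
  · ext v w
    exact hg x hx v w
  · obtain ⟨g, h1, h2, h3, h4, h5⟩ := hlow N W U hW hU hUb
    exact ⟨g, fun x hx v w => congrArg (fun B => bilinApply B v w) (h1 x hx), h3,
      fun x hx v w => congrArg (fun B => bilinApply B v w) (h2 x hx), h4, h5⟩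

end Pool.Agent.Results.MP_07ee5e_gt.SharpOrder
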