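import Pool.Agent.P.MP_07ee5e_gt.Main

/-! On every compact Riemannian manifold of dimension `d + 1 ≥ 3` with connected boundary there are
metrics, equal to the given one along the boundary, with
`σ₁ · |Σ| · |Ω| ^ ((1 - d) / (d + 1)) → ∞`. -/

set_option autoImplicit false

open scoped Manifold ContDiff Topology

namespace Pool.Agent.Results.MP_07ee5e_gt.SteklovLarge

open Pool.Agent.P.MP_07ee5e_gt

theorem result (d : ℕ) (hd : 2 ≤ d) (M : Type) [TopologicalSpace M] [T2Space M] [CompactSpace M]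
    [ChartedSpace (EuclideanHalfSpace (d + 1)) M]
    [IsManifold (modelWithCornersEuclideanHalfSpace (d + 1)) ((⊤ : ℕ∞) : WithTop ℕ∞) M]
    [MeasurableSpace M] [BorelSpace M]
    (hconn : IsConnected ((modelWithCornersEuclideanHalfSpace (d + 1)).boundary M))
    (g₀ : RMetric d M) :
    ∃ g : ℝ → RMetric d M, (∀ ε : ℝ, SameOnBoundary (g ε) g₀) ∧
      Filter.Tendsto (fun ε : ℝ => (steklov1 (g ε)).toReal * (area (g ε) Set.univ).toReal *
        (vol (g ε) Set.univ).toReal ^ ((1 - (d : ℝ)) / ((d : ℝ) + 1)))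
        (nhdsWithin 0 (Set.Ioi 0)) Filter.atTop :=
  (main hd hconn g₀).imp fun _ h =>
    ⟨fun ε x hx v w => congrArg (fun B => bilinApply B v w) (h.1 ε x hx), h.2⟩

end Pool.Agent.Results.MP_07ee5e_gt.SteklovLarge
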